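import Mathlib
import Pool.Agent.H96R3.AE.Game
import Pool.Agent.H96R3.AE.NT4

/-!
# MP_fe1fea_co, Q1: upper thresholds of Avoider-Enforcer games via edge-deleted subgraphs

The relation `f⁺_H(n) = Θ(max_e f⁻_{H-e}(n))` fails for `H = K₃`: Enforcer wins the game of the path
with two edges for every `b ≤ n^{3/2}/8` (`n` large), but there are infinitely many `n` for which the
largest `b` such that Enforcer wins the triangle game is smaller than `c n^{3/2}`, for every `c > 0`
(the second part is taken from the files `Pool.Agent.H96R3.AE` of the starting repository).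
-/

set_option autoImplicit false

namespace Pool.Agent.Results.MP_fe1fea_co.UpperThreshold

open Finset

/-- The edges of the complete graph `K_n` on `Fin n`. -/
def edgesK (n : ℕ) : Finset (Sym2 (Fin n)) := Finset.univ.filter (fun e => ¬ e.IsDiag)

/-- The edges still unclaimed when Avoider has claimed the edges `A` and Enforcer the edges `B`. -/
def free {n : ℕ} (A B : Finset (Sym2 (Fin n))) : Finset (Sym2 (Fin n)) := edgesK n \ (A ∪ B)

/-- `EnforcerWinsFrom H b A B`: Enforcer has a winning strategy in the strict `(1:b)`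
Avoider-Enforcer `H`-game on `K_n` from the position in which Avoider has claimed `A`, Enforcer has
claimed `B`, and Avoider is to move.

* `final`: all edges are claimed and Avoider's graph contains a copy of `H` (Avoider has lost).
* `round`: some edge is unclaimed, and whichever unclaimed edge `e` Avoider claims, Enforcer's answer
  `ans e` is a set of unclaimed edges, of exactly `b` edges, or of all the remaining edges if fewer
  than `b` remain, after which Enforcer has a winning strategy. -/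
inductive EnforcerWinsFrom {V : Type} (H : SimpleGraph V) {n : ℕ} (b : ℕ) :
    Finset (Sym2 (Fin n)) → Finset (Sym2 (Fin n)) → Prop
  | final (A B : Finset (Sym2 (Fin n))) (hend : free A B = ∅)
      (hH : H.IsContained (SimpleGraph.fromEdgeSet (A : Set (Sym2 (Fin n))))) :
      EnforcerWinsFrom H b A B
  | round (A B : Finset (Sym2 (Fin n))) (hne : free A B ≠ ∅)
      (ans : Sym2 (Fin n) → Finset (Sym2 (Fin n)))
      (hsub : ∀ e ∈ free A B, ans e ⊆ free (insert e A) B)
      (hcard : ∀ e ∈ free A B, (ans e).card = min b (free (insert e A) B).card)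
      (hwin : ∀ e ∈ free A B, EnforcerWinsFrom H b (insert e A) (B ∪ ans e)) :
      EnforcerWinsFrom H b A B

/-- Enforcer has a winning strategy in the strict `(1:b)` Avoider-Enforcer `H`-game on `K_n`
(Avoider moves first). -/
def EnforcerWins {V : Type} (H : SimpleGraph V) (n b : ℕ) : Prop :=
  EnforcerWinsFrom H b (∅ : Finset (Sym2 (Fin n))) ∅

/-- The upper threshold `f⁺_H(n)`: the largest `b` for which Enforcer has a winning strategy. -/
noncomputable def fPlus {V : Type} (H : SimpleGraph V) (n : ℕ) : ℕ :=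
  sSup {b | EnforcerWins H n b}

/-- The lower threshold `f⁻_H(n)`: the largest `t` such that Enforcer has a winning strategy for
every `b ≤ t`. -/
noncomputable def fMinus {V : Type} (H : SimpleGraph V) (n : ℕ) : ℕ :=
  sSup {t | ∀ b ≤ t, EnforcerWins H n b}

/-- `H - e`: the graph obtained from `H` by deleting `e` together with any end of `e` that has degree
one in `H`. -/
def delEdge {V : Type} (H : SimpleGraph V) (e : Sym2 V) :
    SimpleGraph {v : V | ¬ (v ∈ e ∧ (H.neighborSet v).ncard = 1)} :=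
  (H.deleteEdges {e}).induce {v : V | ¬ (v ∈ e ∧ (H.neighborSet v).ncard = 1)}

/-- `max_{e ∈ E(H)} f⁻_{H-e}(n)`. -/
noncomputable def maxLower {V : Type} (H : SimpleGraph V) (n : ℕ) : ℕ :=
  ⨆ e : H.edgeSet, fMinus (delEdge H e.1) n

/-! ### Strategies as sets of positions -/

section basic
variable {n : ℕ}

lemma mem_edgesK (a b : Fin n) : s(a, b) ∈ edgesK n ↔ a ≠ b := by
  simp [edgesK]

lemma free_insert (A B : Finset (Sym2 (Fin n))) (e : Sym2 (Fin n)) :
    free (insert e A) B = (free A B).erase e := by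
  ext x
  simp only [free, Finset.mem_sdiff, Finset.mem_insert, Finset.mem_union, Finset.mem_erase]
  tauto

lemma free_union (A B T : Finset (Sym2 (Fin n))) : free A (B ∪ T) = free A B \ T := by
  ext x
  simp only [free, Finset.mem_sdiff, Finset.mem_union]
  tauto

/-- a strategy given by a set of positions closed under play -/
def Closed {V : Type} (H : SimpleGraph V) (n b : ℕ)
    (S : Set (Finset (Sym2 (Fin n)) × Finset (Sym2 (Fin n)))) : Prop :=
  ∀ p ∈ S, (free p.1 p.2 = ∅ → H.IsContained (SimpleGraph.fromEdgeSet (p.1 : Set (Sym2 (Fin n)))))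
    ∧ ∀ e ∈ free p.1 p.2, ∃ T ⊆ free (insert e p.1) p.2,
      T.card = min b (free (insert e p.1) p.2).card ∧ (insert e p.1, p.2 ∪ T) ∈ S

lemma wins_of_closed {V : Type} (H : SimpleGraph V) (b : ℕ)
    (S : Set (Finset (Sym2 (Fin n)) × Finset (Sym2 (Fin n)))) (hS : Closed H n b S) :
    ∀ (f : ℕ) (A B : Finset (Sym2 (Fin n))), (free A B).card = f → (A, B) ∈ S →
      EnforcerWinsFrom H b A B := by
  classical
  intro f
  induction f using Nat.strong_induction_on with
  | _ f ih =>
  intro A B hf hAB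
  by_cases h0 : free A B = ∅
  · exact EnforcerWinsFrom.final A B h0 ((hS _ hAB).1 h0)
  · have h1 : ∀ e : Sym2 (Fin n), ∃ T : Finset (Sym2 (Fin n)), e ∈ free A B →
        T ⊆ free (insert e A) B ∧ T.card = min b (free (insert e A) B).card ∧
          (insert e A, B ∪ T) ∈ S := by
      intro e
      by_cases he : e ∈ free A B
      · obtain ⟨T, hT1, hT2, hT3⟩ := (hS _ hAB).2 e he
        exact ⟨T, fun _ => ⟨hT1, hT2, hT3⟩⟩
      · exact ⟨∅, fun h => absurd h he⟩
    choose ans hans using h1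
    refine EnforcerWinsFrom.round A B h0 ans (fun e he => (hans e he).1)
      (fun e he => (hans e he).2.1) (fun e he => ?_)
    refine ih (free (insert e A) (B ∪ ans e)).card ?_ _ _ rfl (hans e he).2.2
    rw [free_union, free_insert]
    have h2 : ((free A B).erase e \ ans e).card ≤ ((free A B).erase e).card :=
      Finset.card_le_card Finset.sdiff_subset
    have h3 : ((free A B).erase e).card < (free A B).card := Finset.card_erase_lt_of_mem he
    omega

lemma closed_of_wins {V : Type} (H : SimpleGraph V) (b : ℕ) :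
    Closed H n b {p | EnforcerWinsFrom H b p.1 p.2} := by
  rintro ⟨A, B⟩ h
  change EnforcerWinsFrom H b A B at h
  cases h with
  | final _ _ hend hH =>
    refine ⟨fun _ => hH, fun e he => ?_⟩
    exfalso
    change e ∈ free A B at he
    rw [hend] at he
    exact Finset.notMem_empty _ he
  | round _ _ hne ans hsub hcard hwin =>
    refine ⟨fun h0 => absurd h0 hne, fun e he => ⟨ans e, hsub e he, hcard e he, hwin e he⟩⟩

lemma enforcerWins_of_closed {V : Type} (H : SimpleGraph V) (b : ℕ)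
    (S : Set (Finset (Sym2 (Fin n)) × Finset (Sym2 (Fin n)))) (hS : Closed H n b S)
    (h0 : (∅, ∅) ∈ S) : EnforcerWins H n b :=
  wins_of_closed H b S hS _ ∅ ∅ rfl h0

/-! ### Well-definedness of the thresholds -/

lemma contained_card_le_one {V : Type} (H : SimpleGraph V) (hH : 2 ≤ H.edgeSet.ncard)
    (A : Finset (Sym2 (Fin n))) (hA : A.card ≤ 1)
    (h : H.IsContained (SimpleGraph.fromEdgeSet (A : Set (Sym2 (Fin n))))) : False := by
  obtain ⟨f⟩ := h
  obtain ⟨e₁, h₁, e₂, h₂, hne⟩ := (Set.one_lt_ncard_iff_nontrivial_and_finite.1 hH).1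
  have key : ∀ e ∈ H.edgeSet, Sym2.map f e ∈ A := by
    intro e he
    induction e with | _ u v
    have h3 := f.toHom.map_adj (show H.Adj u v from he)
    rw [SimpleGraph.fromEdgeSet_adj] at h3
    exact_mod_cast h3.1
  have h3 := Finset.card_le_one.1 hA _ (key e₁ h₁) _ (key e₂ h₂)
  exact hne (Sym2.map.injective f.injective h3)

lemma not_wins_of_large {V : Type} (H : SimpleGraph V) (hH : 2 ≤ H.edgeSet.ncard) (b : ℕ)
    (hb : (edgesK n).card ≤ b) : ¬ EnforcerWins H n b := by
  intro h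
  have hc := closed_of_wins (n := n) H b
  obtain ⟨h1, h2⟩ := hc (∅, ∅) h
  by_cases h0 : free (∅ : Finset (Sym2 (Fin n))) ∅ = ∅
  · exact contained_card_le_one H hH ∅ (by simp) (h1 h0)
  · obtain ⟨e, he⟩ := Finset.nonempty_iff_ne_empty.2 h0
    obtain ⟨T, hT1, hT2, hT3⟩ := h2 e he
    have h3 : (free (insert e (∅ : Finset (Sym2 (Fin n)))) ∅).card ≤ b :=
      (Finset.card_le_card Finset.sdiff_subset).trans hb
    have h4 : T = free (insert e (∅ : Finset (Sym2 (Fin n)))) ∅ := by
      apply Finset.eq_of_subset_of_card_le hT1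
      rw [hT2, min_eq_right h3]
    obtain ⟨h5, _⟩ := hc _ hT3
    refine contained_card_le_one H hH (insert e ∅) (by simp) (h5 ?_)
    change free (insert e ∅) (∅ ∪ T) = ∅
    rw [free_union, ← h4, Finset.sdiff_self]

lemma wins_zero {V : Type} [Fintype V] (H : SimpleGraph V) (hn : Fintype.card V ≤ n) :
    EnforcerWins H n 0 := by
  apply enforcerWins_of_closed H 0 {p | p.2 = ∅}
  · rintro ⟨A, B⟩ hB
    change B = ∅ at hB
    subst hB
    refine ⟨fun h0 => ?_, fun e he => ⟨∅, Finset.empty_subset _, by simp, by simp⟩⟩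
    have h1 : SimpleGraph.fromEdgeSet (A : Set (Sym2 (Fin n))) = ⊤ := by
      ext a b
      rw [SimpleGraph.fromEdgeSet_adj, SimpleGraph.top_adj]
      constructor
      · exact fun h => h.2
      · intro hab
        refine ⟨?_, hab⟩
        by_contra hA
        have : s(a, b) ∈ free A ∅ := by
          rw [free, Finset.mem_sdiff, mem_edgesK, Finset.union_empty]
          exact ⟨hab, by exact_mod_cast hA⟩
        rw [show free A ∅ = ∅ from h0] at this
        exact Finset.notMem_empty _ this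
    change H.IsContained (SimpleGraph.fromEdgeSet (A : Set (Sym2 (Fin n))))
    rw [h1]
    have h2 : Nonempty (V ↪ Fin n) := by
      rw [Function.Embedding.nonempty_iff_card_le, Fintype.card_fin]
      exact hn
    obtain ⟨f⟩ := h2
    exact ⟨⟨⟨f, fun {a b} hab => by
      rw [SimpleGraph.top_adj]
      exact fun h => hab.ne (f.injective h)⟩, f.injective⟩⟩
  · rfl

lemma isGreatest_fPlus {V : Type} [Fintype V] (H : SimpleGraph V) (hH : 2 ≤ H.edgeSet.ncard)
    (hn : Fintype.card V ≤ n) : IsGreatest {b | EnforcerWins H n b} (fPlus H n) := by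
  have hbdd : BddAbove {b | EnforcerWins H n b} := by
    refine ⟨(edgesK n).card, fun b hb => ?_⟩
    by_contra hlt
    push Not at hlt
    exact not_wins_of_large H hH b hlt.le hb
  exact ⟨Nat.sSup_mem ⟨0, wins_zero H hn⟩ hbdd, fun b hb => le_csSup hbdd hb⟩

lemma isGreatest_fMinus {V : Type} [Fintype V] (H : SimpleGraph V) (hH : 2 ≤ H.edgeSet.ncard)
    (hn : Fintype.card V ≤ n) :
    IsGreatest {t | ∀ b ≤ t, EnforcerWins H n b} (fMinus H n) := by
  have hbdd : BddAbove {t | ∀ b ≤ t, EnforcerWins H n b} := by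
    refine ⟨(edgesK n).card, fun b hb => ?_⟩
    by_contra hlt
    push Not at hlt
    exact not_wins_of_large H hH b hlt.le (hb b le_rfl)
  refine ⟨Nat.sSup_mem ⟨0, ?_⟩ hbdd, fun b hb => le_csSup hbdd hb⟩
  intro b hb
  obtain rfl : b = 0 := by omega
  exact wins_zero H hn

end basic

/-! ### The game of the path with two edges -/

section path
variable {n : ℕ}

/-- two adjacent edges -/
def HasP (A : Finset (Sym2 (Fin n))) : Prop :=
  ∃ v u w, u ≠ w ∧ s(v, u) ∈ A ∧ s(v, w) ∈ A

lemma HasP.mono {A A' : Finset (Sym2 (Fin n))} (h : HasP A) (hAA : A ⊆ A') : HasP A' := by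
  obtain ⟨v, u, w, h1, h2, h3⟩ := h
  exact ⟨v, u, w, h1, hAA h2, hAA h3⟩

/-- a vertex covered by `A` -/
def Cov (A : Finset (Sym2 (Fin n))) (v : Fin n) : Prop := ∃ f ∈ A, v ∈ f

lemma hasP_of_cov (A : Finset (Sym2 (Fin n))) (e : Sym2 (Fin n)) (he : e ∉ A) (v : Fin n)
    (hv : v ∈ e) (hc : Cov A v) : HasP (insert e A) := by
  obtain ⟨f, hf, hvf⟩ := hc
  obtain ⟨u, rfl⟩ := Sym2.mem_iff_exists.1 hv
  obtain ⟨w, rfl⟩ := Sym2.mem_iff_exists.1 hvf
  refine ⟨v, u, w, ?_, Finset.mem_insert_self _ _, Finset.mem_insert_of_mem hf⟩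
  rintro rfl
  exact he hf

open Classical in
/-- the edges of the complete graph on `W` -/
noncomputable def KE (W : Finset (Fin n)) : Finset (Sym2 (Fin n)) :=
  (edgesK n).filter (fun e => ∀ v ∈ e, v ∈ W)

lemma mem_KE (W : Finset (Fin n)) (e : Sym2 (Fin n)) :
    e ∈ KE W ↔ e ∈ edgesK n ∧ ∀ v ∈ e, v ∈ W := by
  classical
  simp [KE]

lemma KE_mono {W W' : Finset (Fin n)} (h : W ⊆ W') : KE W ⊆ KE W' := by
  intro e he
  rw [mem_KE] at he ⊢
  exact ⟨he.1, fun v hv => h (he.2 v hv)⟩

lemma card_KE_le (W : Finset (Fin n)) : (KE W).card ≤ W.card ^ 2 := by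
  classical
  have h1 : KE W ⊆ (W ×ˢ W).image (fun z => s(z.1, z.2)) := by
    intro e he
    rw [mem_KE] at he
    induction e with | _ a b
    rw [Finset.mem_image]
    exact ⟨(a, b), Finset.mem_product.2 ⟨he.2 a (by simp), he.2 b (by simp)⟩, rfl⟩
  refine (Finset.card_le_card h1).trans (Finset.card_image_le.trans ?_)
  rw [Finset.card_product, sq]

/-- between two complete graphs on consecutive numbers of vertices -/
def Q (G : Finset (Sym2 (Fin n))) : Prop :=
  ∃ (W : Finset (Fin n)) (x : Fin n), x ∉ W ∧ KE W ⊆ G ∧ G ⊆ KE (insert x W)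

lemma Q_erase (G : Finset (Sym2 (Fin n))) (hQ : Q G) (hG : G.Nonempty) :
    ∃ e ∈ G, Q (G.erase e) := by
  classical
  obtain ⟨W, x, hx, h1, h2⟩ := hQ
  by_cases h : ∃ e ∈ G, x ∈ e
  · obtain ⟨e, he, hxe⟩ := h
    refine ⟨e, he, W, x, hx, ?_, (Finset.erase_subset _ _).trans h2⟩
    intro f hf
    rw [Finset.mem_erase]
    refine ⟨?_, h1 hf⟩
    rintro rfl
    exact hx (((mem_KE _ _).1 hf).2 x hxe)
  · push Not at h
    have h3 : G ⊆ KE W := by
      intro f hf
      have h4 := (mem_KE _ _).1 (h2 hf)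
      rw [mem_KE]
      refine ⟨h4.1, fun v hv => ?_⟩
      rcases Finset.mem_insert.1 (h4.2 v hv) with h5 | h5
      · subst h5
        exact absurd hv (h f hf)
      · exact h5
    obtain ⟨e, he⟩ := hG
    induction e with | _ a b
    have h4 := (mem_KE _ _).1 (h3 he)
    have haW : a ∈ W := h4.2 a (by simp)
    refine ⟨s(a, b), he, W.erase a, a, Finset.notMem_erase a W, ?_, ?_⟩
    · intro f hf
      rw [Finset.mem_erase]
      refine ⟨?_, h1 (KE_mono (Finset.erase_subset _ _) hf)⟩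
      rintro rfl
      exact Finset.notMem_erase a W (((mem_KE _ _).1 hf).2 a (by simp))
    · rw [Finset.insert_erase haW]
      exact (Finset.erase_subset _ _).trans h3

lemma Q_remove (G : Finset (Sym2 (Fin n))) (hQ : Q G) :
    ∀ b ≤ G.card, ∃ T ⊆ G, T.card = b ∧ Q (G \ T) := by
  intro b
  induction b with
  | zero => exact fun _ => ⟨∅, Finset.empty_subset _, rfl, by simpa using hQ⟩
  | succ b ih =>
    intro hb
    obtain ⟨T, hT1, hT2, hT3⟩ := ih (by omega)
    have h1 : (G \ T).Nonempty := by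
      rw [← Finset.card_pos, Finset.card_sdiff_of_subset hT1]
      omega
    obtain ⟨e, he, hQe⟩ := Q_erase _ hT3 h1
    rw [Finset.mem_sdiff] at he
    refine ⟨insert e T, ?_, ?_, ?_⟩
    · exact Finset.insert_subset he.1 hT1
    · rw [Finset.card_insert_of_notMem he.2, hT2]
    · rwa [Finset.sdiff_insert]

open Classical in
lemma Q_filter (G : Finset (Sym2 (Fin n))) (hQ : Q G) (u v : Fin n) :
    Q (G.filter (fun f => u ∉ f ∧ v ∉ f)) := by
  obtain ⟨W, x, hx, h1, h2⟩ := hQ
  refine ⟨W \ {u, v}, x, fun h => hx (Finset.mem_sdiff.1 h).1, ?_, ?_⟩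
  · intro f hf
    rw [Finset.mem_filter]
    refine ⟨h1 (KE_mono Finset.sdiff_subset hf), ?_, ?_⟩
    · intro h
      have := ((mem_KE _ _).1 hf).2 u h
      simp at this
    · intro h
      have := ((mem_KE _ _).1 hf).2 v h
      simp at this
  · intro f hf
    rw [Finset.mem_filter] at hf
    have h4 := (mem_KE _ _).1 (h2 hf.1)
    rw [mem_KE]
    refine ⟨h4.1, fun z hz => ?_⟩
    rcases Finset.mem_insert.1 (h4.2 z hz) with h5 | h5
    · rw [h5]; exact Finset.mem_insert_self _ _
    · apply Finset.mem_insert_of_mem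
      rw [Finset.mem_sdiff]
      refine ⟨h5, ?_⟩
      intro h6
      rcases Finset.mem_insert.1 h6 with h7 | h7
      · subst h7; exact hf.2.1 hz
      · rw [Finset.mem_singleton] at h7
        subst h7; exact hf.2.2 hz

open Classical in
/-- few edges are lost -/
lemma card_filter_ge (G : Finset (Sym2 (Fin n))) (u v : Fin n) :
    G.card ≤ (G.filter (fun f => u ∉ f ∧ v ∉ f)).card + 2 * n := by
  have h1 : G ⊆ G.filter (fun f => u ∉ f ∧ v ∉ f) ∪
      (((univ : Finset (Fin n)).image (fun z => s(u, z))) ∪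
        ((univ : Finset (Fin n)).image (fun z => s(v, z)))) := by
    intro f hf
    rw [Finset.mem_union, Finset.mem_union, Finset.mem_filter]
    by_cases hu : u ∈ f
    · right; left
      obtain ⟨z, rfl⟩ := Sym2.mem_iff_exists.1 hu
      exact Finset.mem_image.2 ⟨z, Finset.mem_univ _, rfl⟩
    by_cases hv : v ∈ f
    · right; right
      obtain ⟨z, rfl⟩ := Sym2.mem_iff_exists.1 hv
      exact Finset.mem_image.2 ⟨z, Finset.mem_univ _, rfl⟩
    exact Or.inl ⟨hf, hu, hv⟩
  refine (Finset.card_le_card h1).trans ((Finset.card_union_le _ _).trans ?_)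
  have h2 := Finset.card_union_le ((univ : Finset (Fin n)).image (fun z => s(u, z)))
    ((univ : Finset (Fin n)).image (fun z => s(v, z)))
  have h3 := Finset.card_image_le (s := (univ : Finset (Fin n))) (f := fun z => s(u, z))
  have h4 := Finset.card_image_le (s := (univ : Finset (Fin n))) (f := fun z => s(v, z))
  rw [Finset.card_univ, Fintype.card_fin] at h3 h4
  omega

open Classical in
/-- many new dangerous edges -/
lemma card_new_ge (G : Finset (Sym2 (Fin n))) (hQ : Q G) (u v : Fin n) (he : s(u, v) ∈ G) (δ : ℕ)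
    (hδ : (δ + 3) ^ 2 ≤ G.card) :
    δ ≤ (G.filter (fun f => f ≠ s(u, v) ∧ ¬ (u ∉ f ∧ v ∉ f))).card := by
  obtain ⟨W, x, hx, h1, h2⟩ := hQ
  have hW : δ + 2 ≤ W.card := by
    have h3 := (Finset.card_le_card h2).trans (card_KE_le (insert x W))
    rw [Finset.card_insert_of_notMem hx] at h3
    have h4 := lt_of_pow_lt_pow_left₀ 2 (Nat.zero_le _) (Nat.lt_of_lt_of_le
      (Nat.pow_lt_pow_left (show δ + 2 < δ + 3 by omega) (by norm_num)) (hδ.trans h3))
    omega
  have key : ∀ a c : Fin n, s(a, c) = s(u, v) → a ∈ W →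
      δ ≤ (G.filter (fun f => f ≠ s(u, v) ∧ ¬ (u ∉ f ∧ v ∉ f))).card := by
    intro a c hac haW
    have h3 : ((W \ {a, c}).image (fun z => s(a, z))) ⊆
        G.filter (fun f => f ≠ s(u, v) ∧ ¬ (u ∉ f ∧ v ∉ f)) := by
      intro f hf
      obtain ⟨z, hz, rfl⟩ := Finset.mem_image.1 hf
      rw [Finset.mem_sdiff, Finset.mem_insert, Finset.mem_singleton] at hz
      push Not at hz
      rw [Finset.mem_filter]
      refine ⟨h1 ?_, ?_, ?_⟩
      · rw [mem_KE]
        refine ⟨(mem_edgesK _ _).2 (Ne.symm hz.2.1), ?_⟩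
        intro y hy
        rcases Sym2.mem_iff.1 hy with rfl | rfl
        · exact haW
        · exact hz.1
      · rw [← hac]
        intro h
        rw [Sym2.eq_iff] at h
        rcases h with h | h
        · exact hz.2.2 h.2
        · exact hz.2.1 h.2
      · rintro ⟨h4, h5⟩
        have h6 : a ∈ s(u, v) := by rw [← hac]; simp
        rcases Sym2.mem_iff.1 h6 with rfl | rfl
        · exact h4 (by simp)
        · exact h5 (by simp)
    have h4 : ((W \ {a, c}).image (fun z => s(a, z))).card = (W \ {a, c}).card := by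
      apply Finset.card_image_of_injOn
      intro y _ z _ hyz
      simp only [Sym2.eq_iff] at hyz
      rcases hyz with h | h
      · exact h.2
      · rw [← h.1, h.2]
    have h5 : W.card ≤ (W \ {a, c}).card + ({a, c} : Finset (Fin n)).card := by
      have := Finset.le_card_sdiff ({a, c} : Finset (Fin n)) W
      omega
    have h6 : ({a, c} : Finset (Fin n)).card ≤ 2 := Finset.card_le_two
    have h7 := Finset.card_le_card h3
    omega
  have h3 := (mem_KE _ _).1 (h2 he)
  have huv := (mem_edgesK u v).1 h3.1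
  rcases Finset.mem_insert.1 (h3.2 u (by simp)) with hu | hu
  · rcases Finset.mem_insert.1 (h3.2 v (by simp)) with hv | hv
    · exact absurd (hu.trans hv.symm) huv
    · exact key v u Sym2.eq_swap hv
  · exact key u v rfl hu

open Classical in
/-- safe free edges -/
noncomputable def Gs (A B : Finset (Sym2 (Fin n))) : Finset (Sym2 (Fin n)) :=
  (free A B).filter (fun e => ∀ v ∈ e, ¬ Cov A v)

open Classical in
/-- dangerous free edges -/
noncomputable def Ds (A B : Finset (Sym2 (Fin n))) : Finset (Sym2 (Fin n)) :=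
  (free A B).filter (fun e => ¬ ∀ v ∈ e, ¬ Cov A v)

lemma card_Gs_add_Ds (A B : Finset (Sym2 (Fin n))) :
    (Gs A B).card + (Ds A B).card = (free A B).card := by
  classical
  exact Finset.card_filter_add_card_filter_not _

lemma cov_insert (A : Finset (Sym2 (Fin n))) (u v z : Fin n) :
    Cov (insert s(u, v) A) z ↔ (z = u ∨ z = v) ∨ Cov A z := by
  unfold Cov
  constructor
  · rintro ⟨f, hf, hz⟩
    rcases Finset.mem_insert.1 hf with rfl | hf
    · exact Or.inl (Sym2.mem_iff.1 hz)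
    · exact Or.inr ⟨f, hf, hz⟩
  · rintro (h | ⟨f, hf, hz⟩)
    · exact ⟨s(u, v), Finset.mem_insert_self _ _, Sym2.mem_iff.2 h⟩
    · exact ⟨f, Finset.mem_insert_of_mem hf, hz⟩

open Classical in
lemma Gs_insert (A B : Finset (Sym2 (Fin n))) (u v : Fin n) :
    Gs (insert s(u, v) A) B = (Gs A B).filter (fun f => u ∉ f ∧ v ∉ f) := by
  ext f
  simp only [Gs, Finset.mem_filter, free_insert, Finset.mem_erase]
  constructor
  · rintro ⟨⟨h1, h2⟩, h3⟩
    refine ⟨⟨h2, fun z hz hc => h3 z hz ((cov_insert A u v z).2 (Or.inr hc))⟩, ?_, ?_⟩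
    · intro hu
      exact h3 u hu ((cov_insert A u v u).2 (Or.inl (Or.inl rfl)))
    · intro hv
      exact h3 v hv ((cov_insert A u v v).2 (Or.inl (Or.inr rfl)))
  · rintro ⟨⟨h1, h2⟩, h3, h4⟩
    refine ⟨⟨?_, h1⟩, ?_⟩
    · rintro rfl
      exact h3 (by simp)
    · intro z hz hc
      rcases (cov_insert A u v z).1 hc with (rfl | rfl) | hc
      · exact h3 hz
      · exact h4 hz
      · exact h2 z hz hc

open Classical in
lemma Ds_insert_card (A B : Finset (Sym2 (Fin n))) (u v : Fin n) (he : s(u, v) ∈ Gs A B) :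
    (Ds A B).card + ((Gs A B).filter (fun f => f ≠ s(u, v) ∧ ¬ (u ∉ f ∧ v ∉ f))).card
      = (Ds (insert s(u, v) A) B).card := by
  have h1 := card_Gs_add_Ds A B
  have h2 := card_Gs_add_Ds (insert s(u, v) A) B
  have he' : s(u, v) ∈ free A B := (Finset.mem_filter.1 he).1
  rw [free_insert, Finset.card_erase_of_mem he'] at h2
  have h3 : 0 < (free A B).card := Finset.card_pos.2 ⟨_, he'⟩
  rw [Gs_insert] at h2
  have h4 : ((Gs A B).filter (fun f => u ∉ f ∧ v ∉ f)).card +
      ((Gs A B).filter (fun f => ¬ (u ∉ f ∧ v ∉ f))).card = (Gs A B).card :=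
    Finset.card_filter_add_card_filter_not _
  have h5 : (Gs A B).filter (fun f => f ≠ s(u, v) ∧ ¬ (u ∉ f ∧ v ∉ f)) =
      ((Gs A B).filter (fun f => ¬ (u ∉ f ∧ v ∉ f))).erase s(u, v) := by
    ext f
    simp only [Finset.mem_filter, Finset.mem_erase]
    tauto
  have h6 : s(u, v) ∈ (Gs A B).filter (fun f => ¬ (u ∉ f ∧ v ∉ f)) := by
    rw [Finset.mem_filter]
    exact ⟨he, by simp⟩
  have h7 : 0 < ((Gs A B).filter (fun f => ¬ (u ∉ f ∧ v ∉ f))).card := Finset.card_pos.2 ⟨_, h6⟩
  rw [h5, Finset.card_erase_of_mem h6]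
  omega

lemma Gs_union (A B T : Finset (Sym2 (Fin n))) : Gs A (B ∪ T) = Gs A B \ T := by
  classical
  ext f
  simp only [Gs, free_union, Finset.mem_filter, Finset.mem_sdiff]
  tauto

lemma Ds_union (A B T : Finset (Sym2 (Fin n))) (hT : T ⊆ Gs A B) : Ds A (B ∪ T) = Ds A B := by
  classical
  ext f
  simp only [Ds, free_union, Finset.mem_filter, Finset.mem_sdiff]
  constructor
  · rintro ⟨⟨h1, _⟩, h2⟩
    exact ⟨h1, h2⟩
  · rintro ⟨h1, h2⟩
    exact ⟨⟨h1, fun h => h2 (Finset.mem_filter.1 (hT h)).2⟩, h2⟩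

/-- the positions of Enforcer's strategy -/
def Inv (n b δ : ℕ) (A B : Finset (Sym2 (Fin n))) : Prop :=
  Q (Gs A B) ∧ (b + 1 ≤ (Ds A B).card ∨ (δ * A.card ≤ (Ds A B).card ∧
    (edgesK n).card ≤ (Gs A B).card + A.card * (2 * n + b)))

lemma closed_path {V : Type} (H : SimpleGraph V) (n b δ : ℕ)
    (hH : ∀ A ⊆ edgesK n, HasP A →
      H.IsContained (SimpleGraph.fromEdgeSet (A : Set (Sym2 (Fin n)))))
    (hnum : ∀ j, δ * j ≤ b →
      j * (2 * n + b) + ((δ + 3) ^ 2 + 2 * n + b) ≤ (edgesK n).card) :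
    Closed H n b {p | p.1 ⊆ edgesK n ∧ (HasP p.1 ∨
      ((free p.1 p.2).Nonempty ∧ ∀ e ∈ free p.1 p.2, HasP (insert e p.1)) ∨
      Inv n b δ p.1 p.2)} := by
  classical
  rintro ⟨A, B⟩ ⟨hA, hp⟩
  change A ⊆ edgesK n at hA
  change HasP A ∨ ((free A B).Nonempty ∧ ∀ e ∈ free A B, HasP (insert e A)) ∨ Inv n b δ A B at hp
  -- many safe edges in the first phase
  have hphase : Inv n b δ A B → ¬ (b + 1 ≤ (Ds A B).card) →
      (δ + 3) ^ 2 + 2 * n + b ≤ (Gs A B).card := by
    rintro ⟨_, h1⟩ h2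
    obtain ⟨h3, h4⟩ := h1.resolve_left h2
    have := hnum A.card (by omega)
    omega
  constructor
  · intro h0
    change free A B = ∅ at h0
    apply hH A hA
    rcases hp with hp | ⟨hp, _⟩ | hp
    · exact hp
    · rw [h0] at hp; exact absurd hp Finset.not_nonempty_empty
    · exfalso
      have h1 := card_Gs_add_Ds A B
      rw [h0, Finset.card_empty] at h1
      by_cases h2 : b + 1 ≤ (Ds A B).card
      · omega
      · have := hphase hp h2
        have h3 : 0 < (δ + 3) ^ 2 := by positivity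
        omega
  · intro e he
    change e ∈ free A B at he
    change ∃ T ⊆ free (insert e A) B, T.card = min b (free (insert e A) B).card ∧
      (insert e A ⊆ edgesK n ∧ (HasP (insert e A) ∨
        ((free (insert e A) (B ∪ T)).Nonempty ∧ ∀ f ∈ free (insert e A) (B ∪ T),
          HasP (insert f (insert e A))) ∨ Inv n b δ (insert e A) (B ∪ T)))
    have heK : e ∈ edgesK n := (Finset.mem_sdiff.1 he).1
    have heA : e ∉ A := fun h => (Finset.mem_sdiff.1 he).2 (Finset.mem_union_left _ h)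
    have hA' : insert e A ⊆ edgesK n := Finset.insert_subset heK hA
    by_cases hP : HasP (insert e A)
    · obtain ⟨T, hT1, hT2⟩ := Finset.exists_subset_card_eq
        (show min b (free (insert e A) B).card ≤ (free (insert e A) B).card from min_le_right _ _)
      exact ⟨T, hT1, hT2, hA', Or.inl hP⟩
    rcases hp with hp | ⟨_, hp⟩ | hp
    · exact absurd (hp.mono (Finset.subset_insert _ _)) hP
    · exact absurd (hp e he) hP
    -- the main case
    have hsafe : e ∈ Gs A B := by
      rw [Gs, Finset.mem_filter]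
      refine ⟨he, fun v hv hc => hP (hasP_of_cov A e heA v hv hc)⟩
    induction e with | _ u v
    have hQ' : Q (Gs (insert s(u, v) A) B) := by
      rw [Gs_insert]
      exact Q_filter _ hp.1 u v
    have hG' : (Gs A B).card ≤ (Gs (insert s(u, v) A) B).card + 2 * n := by
      rw [Gs_insert]
      exact card_filter_ge _ u v
    have hD' := Ds_insert_card A B u v hsafe
    have hfree := card_Gs_add_Ds (insert s(u, v) A) B
    have hcardA : (insert s(u, v) A).card = A.card + 1 := Finset.card_insert_of_notMem heA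
    by_cases hb : b ≤ (Gs (insert s(u, v) A) B).card
    · obtain ⟨T, hT1, hT2, hT3⟩ := Q_remove _ hQ' b hb
      refine ⟨T, hT1.trans (Finset.filter_subset _ _), ?_, hA', Or.inr (Or.inr ?_)⟩
      · rw [hT2, min_eq_left]; omega
      · refine ⟨?_, ?_⟩
        · rw [Gs_union]; exact hT3
        · rw [Ds_union _ _ _ hT1, Gs_union, Finset.card_sdiff_of_subset hT1, hT2, hcardA]
          by_cases h1 : b + 1 ≤ (Ds A B).card
          · left; omega
          · right
            have h2 := hphase hp h1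
            obtain ⟨h3, h4⟩ := hp.2.resolve_left h1
            have h5 := card_new_ge (Gs A B) hp.1 u v hsafe δ (by omega)
            constructor
            · rw [Nat.mul_add, Nat.mul_one]; omega
            · rw [Nat.add_mul, Nat.one_mul]; omega
    · have h1 : b + 1 ≤ (Ds A B).card := by
        by_contra h1
        have := hphase hp h1
        omega
      obtain ⟨T, hT1, hT2, hT3⟩ := Finset.exists_subsuperset_card_eq
        (show Gs (insert s(u, v) A) B ⊆ free (insert s(u, v) A) B from Finset.filter_subset _ _)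
        (show (Gs (insert s(u, v) A) B).card ≤ b by omega)
        (show b ≤ (free (insert s(u, v) A) B).card by omega)
      refine ⟨T, hT2, ?_, hA', Or.inr (Or.inl ⟨?_, ?_⟩)⟩
      · rw [hT3, min_eq_left]; omega
      · rw [free_union, ← Finset.card_pos, Finset.card_sdiff_of_subset hT2, hT3]
        omega
      · intro f hf
        rw [free_union, Finset.mem_sdiff] at hf
        have h2 : ¬ ∀ z ∈ f, ¬ Cov (insert s(u, v) A) z := by
          intro h
          exact hf.2 (hT1 (Finset.mem_filter.2 ⟨hf.1, h⟩))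
        push Not at h2
        obtain ⟨z, hz, hc⟩ := h2
        refine hasP_of_cov _ f ?_ z hz hc
        exact fun h => (Finset.mem_sdiff.1 hf.1).2 (Finset.mem_union_left _ h)

end path

/-! ### The lower threshold of the path with two edges -/

section lower

lemma card_edgesK (n : ℕ) : (edgesK n).card = n.choose 2 := Pool.Agent.H96R3.AE.card_Ed n

lemma numeric (n b j : ℕ) (hn : 6400 ≤ n) (hb : 64 * b ^ 2 ≤ n ^ 3) (hj : n / 4 * j ≤ b) :
    j * (2 * n + b) + ((n / 4 + 3) ^ 2 + 2 * n + b) ≤ n.choose 2 := by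
  have hC : 2 * n.choose 2 = n * (n - 1) := by
    rw [Nat.choose_two_right, Nat.mul_div_cancel' (Nat.even_mul_pred_self n).two_dvd]
  obtain ⟨m, rfl⟩ : ∃ m, n = m + 1 := ⟨n - 1, by omega⟩
  rw [Nat.add_sub_cancel] at hC
  set n := m + 1 with hnm
  set δ := n / 4 with hδ
  have h1 : 4 * δ ≤ n := by omega
  have h2 : n ≤ 5 * δ := by omega
  have h3 : 640 * b ≤ n ^ 2 := by
    by_contra h
    push Not at h
    have h4 : (n ^ 2) ^ 2 < (640 * b) ^ 2 := Nat.pow_lt_pow_left h (by norm_num)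
    have h5 : (640 * b) ^ 2 = 6400 * (64 * b ^ 2) := by ring
    have h6 : 6400 * (64 * b ^ 2) ≤ 6400 * n ^ 3 := Nat.mul_le_mul_left _ hb
    have h7 : 6400 * n ^ 3 ≤ n * n ^ 3 := Nat.mul_le_mul_right _ hn
    have h8 : n * n ^ 3 = (n ^ 2) ^ 2 := by ring
    omega
  have h4 : j * n ≤ 5 * b := by
    calc j * n ≤ j * (5 * δ) := Nat.mul_le_mul_left _ h2
      _ = 5 * (δ * j) := by ring
      _ ≤ 5 * b := Nat.mul_le_mul_left _ hj
  have h5 : 64 * (j * b) ≤ 5 * n ^ 2 := by
    have h6 : n * (64 * (j * b)) ≤ n * (5 * n ^ 2) := by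
      calc n * (64 * (j * b)) = 64 * ((j * n) * b) := by ring
        _ ≤ 64 * ((5 * b) * b) := by gcongr
        _ = 5 * (64 * b ^ 2) := by ring
        _ ≤ 5 * n ^ 3 := Nat.mul_le_mul_left _ hb
        _ = n * (5 * n ^ 2) := by ring
    exact Nat.le_of_mul_le_mul_left h6 (by omega)
  have h6 : 8 * (δ + 3) ^ 2 ≤ n ^ 2 := by
    have h7 : (4 * (δ + 3)) ^ 2 ≤ (n + 12) ^ 2 := Nat.pow_le_pow_left (by omega) 2
    have h8 : (n + 12) ^ 2 ≤ 2 * n ^ 2 := by nlinarith
    have h9 : (4 * (δ + 3)) ^ 2 = 2 * (8 * (δ + 3) ^ 2) := by ring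
    omega
  have h7 : 6400 * n ≤ n ^ 2 := by rw [sq]; exact Nat.mul_le_mul_right _ hn
  have h8 : n * m + n = n ^ 2 := by rw [hnm]; ring
  have h9 : j * (2 * n + b) = 2 * (j * n) + j * b := by ring
  rw [h9]
  omega

lemma initial_mem {n : ℕ} (b δ : ℕ) (hn : 0 < n) : Inv n b δ ∅ ∅ := by
  classical
  have h1 : Gs (∅ : Finset (Sym2 (Fin n))) ∅ = edgesK n := by
    ext f
    simp [Gs, free, Cov]
  refine ⟨?_, Or.inr ⟨by simp, by rw [h1]; simp⟩⟩
  rw [h1]
  refine ⟨univ.erase ⟨0, hn⟩, ⟨0, hn⟩, Finset.notMem_erase _ _, ?_, ?_⟩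
  · intro f hf
    exact ((mem_KE _ _).1 hf).1
  · intro f hf
    rw [Finset.insert_erase (Finset.mem_univ _), mem_KE]
    exact ⟨hf, fun v _ => Finset.mem_univ v⟩

/-- Enforcer wins the game of any graph contained in all graphs with two adjacent edges, if
`b ≤ n^{3/2}/8` -/
lemma enforcer_wins_path {V : Type} (H : SimpleGraph V) (n b : ℕ)
    (hH : ∀ A ⊆ edgesK n, HasP A →
      H.IsContained (SimpleGraph.fromEdgeSet (A : Set (Sym2 (Fin n)))))
    (hn : 6400 ≤ n) (hb : 64 * b ^ 2 ≤ n ^ 3) : EnforcerWins H n b := by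
  refine enforcerWins_of_closed H b _ (closed_path H n b (n / 4) hH ?_) ?_
  · intro j hj
    rw [card_edgesK]
    exact numeric n b j hn hb hj
  · exact ⟨Finset.empty_subset _, Or.inr (Or.inr (initial_mem b (n / 4) (by omega)))⟩

/-- the triangle -/
abbrev K3 : SimpleGraph (Fin 3) := ⊤

lemma third : ∀ i j a b : Fin 3, i ≠ j → a ≠ i → a ≠ j → b ≠ i → b ≠ j → a = b := by decide

lemma exists_third : ∀ i j : Fin 3, ∃ k, k ≠ i ∧ k ≠ j := by decide

lemma delEdge_contained {n : ℕ} (i j : Fin 3) (hij : i ≠ j) (A : Finset (Sym2 (Fin n)))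
    (hA : A ⊆ edgesK n) (hP : HasP A) :
    (delEdge K3 s(i, j)).IsContained (SimpleGraph.fromEdgeSet (A : Set (Sym2 (Fin n)))) := by
  obtain ⟨v, u, w, huw, h1, h2⟩ := hP
  have hvu : v ≠ u := (mem_edgesK _ _).1 (hA h1)
  have hvw : v ≠ w := (mem_edgesK _ _).1 (hA h2)
  set f : Fin 3 → Fin n := fun a => if a = i then u else if a = j then w else v with hf
  have hfi : f i = u := by simp [hf]
  have hfj : f j = w := by simp [hf, hij.symm]
  have hfk : ∀ a, a ≠ i → a ≠ j → f a = v := by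
    intro a h3 h4; simp [hf, h3, h4]
  have hinj : Function.Injective f := by
    intro a b hab
    by_cases ha : a = i
    · subst ha
      by_cases hb : b = a
      · exact hb.symm
      by_cases hb' : b = j
      · subst hb'; rw [hfi, hfj] at hab; exact absurd hab huw
      · rw [hfi, hfk b hb hb'] at hab; exact absurd hab.symm hvu
    by_cases ha' : a = j
    · subst ha'
      by_cases hb : b = i
      · subst hb; rw [hfi, hfj] at hab; exact absurd hab.symm huw
      by_cases hb' : b = a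
      · exact hb'.symm
      · rw [hfj, hfk b hb hb'] at hab; exact absurd hab.symm hvw
    rw [hfk a ha ha'] at hab
    by_cases hb : b = i
    · subst hb; rw [hfi] at hab; exact absurd hab hvu
    by_cases hb' : b = j
    · subst hb'; rw [hfj] at hab; exact absurd hab hvw
    exact third i j a b hij ha ha' hb hb'
  have hadj : ∀ a b : Fin 3, a ≠ b → s(a, b) ≠ s(i, j) →
      (SimpleGraph.fromEdgeSet (A : Set (Sym2 (Fin n)))).Adj (f a) (f b) := by
    intro a b hab he
    rw [SimpleGraph.fromEdgeSet_adj]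
    refine ⟨?_, hinj.ne hab⟩
    have h1' : s(u, v) ∈ A := by rw [Sym2.eq_swap]; exact h1
    have h2' : s(w, v) ∈ A := by rw [Sym2.eq_swap]; exact h2
    by_cases ha : a = i
    · subst ha
      have hb' : b ≠ j := fun h => he (by rw [h])
      rw [hfi, hfk b hab.symm hb']; exact_mod_cast h1'
    by_cases ha' : a = j
    · subst ha'
      have hb' : b ≠ i := fun h => he (by rw [h, Sym2.eq_swap])
      rw [hfj, hfk b hb' hab.symm]; exact_mod_cast h2'
    rw [hfk a ha ha']
    by_cases hb : b = i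
    · subst hb; rw [hfi]; exact_mod_cast h1
    by_cases hb' : b = j
    · subst hb'; rw [hfj]; exact_mod_cast h2
    exact absurd (third i j a b hij ha ha' hb hb') hab
  refine ⟨⟨⟨fun a => f a.1, ?_⟩, ?_⟩⟩
  · intro a b hab
    have h3 : (K3.deleteEdges {s(i, j)}).Adj a.1 b.1 := hab
    rw [SimpleGraph.deleteEdges_adj] at h3
    exact hadj a.1 b.1 h3.1.ne (fun h => h3.2 (by rw [h]; rfl))
  · intro a b hab
    exact Subtype.ext (hinj hab)

lemma delEdge_card (i j : Fin 3) (hij : i ≠ j) : 2 ≤ (delEdge K3 s(i, j)).edgeSet.ncard := by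
  have hall : ∀ v : Fin 3, v ∈ {v : Fin 3 | ¬ (v ∈ s(i, j) ∧ (K3.neighborSet v).ncard = 1)} := by
    intro v
    rintro ⟨_, h⟩
    have h2 : K3.neighborSet v = ({v}ᶜ : Set (Fin 3)) := by
      ext w; simp [eq_comm]
    rw [h2, Set.ncard_compl, Set.ncard_singleton, Nat.card_eq_fintype_card, Fintype.card_fin] at h
    omega
  obtain ⟨k, hki, hkj⟩ := exists_third i j
  have hadj : ∀ a b : Fin 3, a ≠ b → s(a, b) ≠ s(i, j) →
      (delEdge K3 s(i, j)).Adj ⟨a, hall a⟩ ⟨b, hall b⟩ := by
    intro a b hab he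
    change (K3.deleteEdges {s(i, j)}).Adj a b
    rw [SimpleGraph.deleteEdges_adj]
    exact ⟨hab, fun h => he h⟩
  have h1 := hadj k i hki (by
    intro h; rw [Sym2.eq_iff] at h
    rcases h with h | h
    · exact hki h.1
    · exact hkj h.1)
  have h2 := hadj k j hkj (by
    intro h; rw [Sym2.eq_iff] at h
    rcases h with h | h
    · exact hki h.1
    · exact hkj h.1)
  have hlt : 1 < (delEdge K3 s(i, j)).edgeSet.ncard := by
    rw [Set.one_lt_ncard_iff_nontrivial_and_finite]
    refine ⟨⟨s(⟨k, hall k⟩, ⟨i, hall i⟩), h1, s(⟨k, hall k⟩, ⟨j, hall j⟩), h2, ?_⟩,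
      Set.toFinite _⟩
    intro h
    rw [Sym2.eq_iff] at h
    rcases h with h | h
    · exact hij (Subtype.ext_iff.1 h.2)
    · exact hkj (Subtype.ext_iff.1 h.1)
  exact hlt

lemma K3_card : 2 ≤ K3.edgeSet.ncard := by
  have hlt : 1 < K3.edgeSet.ncard := by
    rw [Set.one_lt_ncard_iff_nontrivial_and_finite]
    refine ⟨⟨s(0, 1), by simp, s(0, 2), by simp, by decide⟩, Set.toFinite _⟩
  exact hlt

/-- `f⁻_{P₃}(n) ≥ ⌊n^{3/2}/8⌋` -/
lemma fMinus_ge (n t : ℕ) (hn : 6400 ≤ n) (ht : 64 * t ^ 2 ≤ n ^ 3) :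
    t ≤ fMinus (delEdge K3 s(0, 1)) n := by
  classical
  have hcard : Fintype.card {v : Fin 3 // v ∈ {v : Fin 3 | ¬ (v ∈ s((0 : Fin 3), 1) ∧
      (K3.neighborSet v).ncard = 1)}} ≤ n := by
    refine (Fintype.card_subtype_le _).trans ?_
    rw [Fintype.card_fin]; omega
  refine (isGreatest_fMinus (n := n) (delEdge K3 s(0, 1)) (delEdge_card 0 1 (by decide))
    hcard).2 ?_
  intro b hb
  refine enforcer_wins_path _ n b (fun A hA hP => delEdge_contained 0 1 (by decide) A hA hP) hn ?_
  calc 64 * b ^ 2 ≤ 64 * t ^ 2 := by gcongr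
    _ ≤ n ^ 3 := ht

end lower

/-! ### The upper threshold of the triangle -/

section upper

/-- the core of the starting file `Pool.Agent.S08892` -/
lemma core (k : ℕ) (hk1 : 1 ≤ k) (n₀ : ℕ) : ∃ n, n₀ ≤ n ∧ ∀ b : ℕ, n ^ 3 ≤ k * (b + 1) ^ 2 →
    ¬ ∃ S, Pool.Agent.H96R3.AE.IsWin n b S := by
  set S0 := k * (k - 1) + 1 with hS0
  obtain ⟨n, hn, hnt⟩ := Pool.Agent.H96R3.AE.nt_lemma (k + 4) S0 (max n₀ (4 * S0 + 4))
    (by omega) (by omega)
  have hn1 : n₀ ≤ n := (le_max_left _ _).trans hn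
  have hn2 : 4 * S0 + 4 ≤ n := (le_max_right _ _).trans hn
  refine ⟨n, hn1, ?_⟩
  rintro b hcube ⟨S, hwin⟩
  set N := n.choose 2 with hN
  have h2N : 2 * N = n * (n - 1) := by
    rw [hN, Nat.choose_two_right, Nat.mul_div_cancel' (Nat.even_mul_pred_self n).two_dvd]
  obtain ⟨n', rfl⟩ : ∃ n', n = n' + 1 := ⟨n - 1, by omega⟩
  rw [Nat.add_sub_cancel] at h2N
  have hN1 : 1 ≤ N := by
    have : 0 < (n' + 1) * n' := by
      apply Nat.mul_pos <;> omega
    omega
  set D := b + 1 with hD
  set r := (N - 1) % D + 1 with hr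
  set m := (N - 1) / D with hm
  have hND : N = r + m * D := by
    have h1 := Nat.mod_add_div (N - 1) D
    have h2 : m * D = D * ((N - 1) / D) := by rw [hm]; ring
    omega
  have hrD : r ≤ b + 1 := by
    have := Nat.mod_lt (N - 1) (show 0 < D by omega)
    omega
  have hr1 : r ≤ k * (k - 1) := by
    by_contra hlt
    push Not at hlt
    exact Pool.Agent.H96R3.AE.avoider_wins (n' + 1) b k r m hcube hrD hlt hND S hwin
  have hDn : D ^ 2 < (n' + 1) ^ 3 := by
    by_contra hlt
    push Not at hlt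
    exact Pool.Agent.H96R3.AE.avoider_wins (n' + 1) b 1 r m (by rw [one_mul]; exact hlt) hrD
      (by omega) hND S hwin
  have hD0 : 0 < D ^ 2 := by positivity
  refine hnt r m D (by omega) (by omega) hND ?_ ?_
  · have h1 : (n' + 1) ^ 2 ≤ 4 * (m * D) := by
      have h2 : 4 * (m * D) + 4 * r = 2 * ((n' + 1) * n') := by omega
      have h3 : r ≤ S0 := by omega
      have h4 : 4 * S0 + 3 ≤ n' := by omega
      nlinarith
    have h2 : ((n' + 1) ^ 2) ^ 2 ≤ (4 * (m * D)) ^ 2 := Nat.pow_le_pow_left h1 2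
    have h3 : (n' + 1) * D ^ 2 ≤ (16 * m ^ 2) * D ^ 2 := by
      calc (n' + 1) * D ^ 2 ≤ (n' + 1) * (n' + 1) ^ 3 := Nat.mul_le_mul_left _ hDn.le
        _ = ((n' + 1) ^ 2) ^ 2 := by ring
        _ ≤ (4 * (m * D)) ^ 2 := h2
        _ = (16 * m ^ 2) * D ^ 2 := by ring
    have h4 : n' + 1 ≤ 16 * m ^ 2 := Nat.le_of_mul_le_mul_right h3 hD0
    have h5 : 16 ≤ (k + 4) ^ 2 := by nlinarith
    exact h4.trans (Nat.mul_le_mul_right _ h5)
  · have h1 : 2 * (m * D) ≤ (n' + 1) ^ 2 := by
      have : (n' + 1) * n' ≤ (n' + 1) ^ 2 := by nlinarith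
      omega
    have h2 : (2 * (m * D)) ^ 2 ≤ ((n' + 1) ^ 2) ^ 2 := Nat.pow_le_pow_left h1 2
    have h3 : (4 * m ^ 2) * D ^ 2 ≤ ((n' + 1) * k) * D ^ 2 := by
      calc (4 * m ^ 2) * D ^ 2 = (2 * (m * D)) ^ 2 := by ring
        _ ≤ ((n' + 1) ^ 2) ^ 2 := h2
        _ = (n' + 1) * (n' + 1) ^ 3 := by ring
        _ ≤ (n' + 1) * (k * D ^ 2) := Nat.mul_le_mul_left _ hcube
        _ = ((n' + 1) * k) * D ^ 2 := by ring
    have h4 : 4 * m ^ 2 ≤ (n' + 1) * k := Nat.le_of_mul_le_mul_right h3 hD0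
    have h5 : (n' + 1) * k ≤ (k + 4) ^ 2 * (n' + 1) := by nlinarith
    omega

lemma isWin_of_wins (n b : ℕ) (h : EnforcerWins K3 n b) :
    ∃ S, Pool.Agent.H96R3.AE.IsWin n b S := by
  refine ⟨{p | EnforcerWinsFrom K3 b p.1 p.2}, h, ?_⟩
  intro p hp
  obtain ⟨h1, h2⟩ := closed_of_wins K3 b p hp
  refine ⟨h1, fun e he => ?_⟩
  obtain ⟨T, hT1, hT2, hT3⟩ := h2 e he
  rw [free, Finset.insert_union] at hT1 hT2
  exact ⟨T, hT1, hT2, hT3⟩

lemma K3_upper (c : ℝ) (hc : 0 < c) (n₀ : ℕ) :
    ∃ n, n₀ ≤ n ∧ (fPlus K3 n : ℝ) < c * (maxLower K3 n : ℝ) := by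
  obtain ⟨k, hk⟩ := exists_nat_ge (64 * (1 / c + 1) ^ 2)
  have hk1 : 1 ≤ k := by
    rcases Nat.eq_zero_or_pos k with h0 | h0
    · rw [h0, Nat.cast_zero] at hk
      have : 0 < 64 * (1 / c + 1) ^ 2 := by positivity
      linarith
    · exact h0
  obtain ⟨n, hn, hcore⟩ := core k hk1 (max n₀ 6400)
  have hn1 : n₀ ≤ n := (le_max_left _ _).trans hn
  have hn2 : 6400 ≤ n := (le_max_right _ _).trans hn
  refine ⟨n, hn1, ?_⟩
  by_contra hlt
  push Not at hlt
  have hwin : EnforcerWins K3 n (fPlus K3 n) :=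
    (isGreatest_fPlus (n := n) K3 K3_card (by rw [Fintype.card_fin]; omega)).1
  refine hcore (fPlus K3 n) ?_ (isWin_of_wins n _ hwin)
  have h1 : fMinus (delEdge K3 s(0, 1)) n ≤ maxLower K3 n :=
    le_ciSup (f := fun e : K3.edgeSet => fMinus (delEdge K3 e.1) n) (Set.finite_range _).bddAbove
      ⟨s(0, 1), by simp⟩
  set t := fMinus (delEdge K3 s(0, 1)) n with ht
  have h2 : n ^ 3 < 64 * (t + 1) ^ 2 := by
    by_contra h
    push Not at h
    have := fMinus_ge n (t + 1) hn2 h
    omega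
  set b := fPlus K3 n with hb
  have h3 : c * (t : ℝ) ≤ b := by
    refine le_trans ?_ hlt
    have : (t : ℝ) ≤ maxLower K3 n := by exact_mod_cast h1
    gcongr
  have h4 : (t : ℝ) + 1 ≤ (1 / c + 1) * (b + 1) := by
    have h5 : (t : ℝ) ≤ b / c := by rw [le_div_iff₀ hc]; linarith
    have h6 : (0 : ℝ) ≤ b := by positivity
    have h7 : 0 < 1 / c := by positivity
    have h8 : (b : ℝ) / c = 1 / c * b := by ring
    nlinarith
  have h5 : (n : ℝ) ^ 3 ≤ k * (b + 1) ^ 2 := by
    have h6 : (n : ℝ) ^ 3 ≤ 64 * (t + 1) ^ 2 := by exact_mod_cast h2.le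
    calc (n : ℝ) ^ 3 ≤ 64 * ((t : ℝ) + 1) ^ 2 := h6
      _ ≤ 64 * ((1 / c + 1) * (b + 1)) ^ 2 := by gcongr
      _ = (64 * (1 / c + 1) ^ 2) * (b + 1) ^ 2 := by ring
      _ ≤ k * (b + 1) ^ 2 := by gcongr
  exact_mod_cast h5

end upper

/-- **Q1 is false**, already for the triangle `H = K₃`.

* First part: the thresholds are well defined, for every finite graph `H` with at least two edges and
  every `n ≥ v(H)`.
* Second part: for `H = K₃` and every `c > 0` there are arbitrarily large `n` with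
  `f⁺_H(n) < c · max_{e ∈ E(H)} f⁻_{H-e}(n)`.
* Third part: the negation of Q1. -/
theorem result :
    (∀ (V : Type) [Fintype V] (H : SimpleGraph V), 2 ≤ H.edgeSet.ncard →
      ∀ n : ℕ, Fintype.card V ≤ n →
        IsGreatest {b | EnforcerWins H n b} (fPlus H n) ∧
        IsGreatest {t | ∀ b ≤ t, EnforcerWins H n b} (fMinus H n)) ∧
    (∀ c : ℝ, 0 < c → ∀ n₀ : ℕ, ∃ n, n₀ ≤ n ∧
      (fPlus (⊤ : SimpleGraph (Fin 3)) n : ℝ) < c * (maxLower (⊤ : SimpleGraph (Fin 3)) n : ℝ)) ∧
    ¬ (∀ (V : Type) [Fintype V] (H : SimpleGraph V), 3 ≤ H.edgeSet.ncard →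
      ∃ c C : ℝ, 0 < c ∧ c < C ∧ ∃ n₀ : ℕ, ∀ n : ℕ, n₀ ≤ n →
        c * (maxLower H n : ℝ) ≤ (fPlus H n : ℝ) ∧
        (fPlus H n : ℝ) ≤ C * (maxLower H n : ℝ)) := by
  refine ⟨?_, ?_, ?_⟩
  · intro V _ H hH n hn
    exact ⟨isGreatest_fPlus H hH hn, isGreatest_fMinus H hH hn⟩
  · exact fun c hc n₀ => K3_upper c hc n₀
  · intro h
    have h3 : 3 ≤ K3.edgeSet.ncard := by
      rw [Set.ncard_eq_toFinset_card']
      decide
    obtain ⟨c, C, hc, _, n₀, hn₀⟩ := h (Fin 3) K3 h3
    obtain ⟨n, hn, hlt⟩ := K3_upper c hc n₀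
    have := (hn₀ n hn).1
    linarith

end Pool.Agent.Results.MP_fe1fea_co.UpperThreshold
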